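import Pool.Agent.Lib.MP_f38b71_nt.Defs

namespace Pool.Agent.Lib.MP_f38b71_nt

open WeierstrassCurve WeierstrassCurve.Affine Filter

theorem exists_hom_of_generic {G H : Type*} [AddCommGroup G] [AddCommGroup H] [Infinite G]
    (φ0 : G → H) (S : Set G) (hS : S.Finite)
    (h : ∀ P ∉ S, ∀ᶠ Q in cofinite, φ0 (P + Q) = φ0 P + φ0 Q) :
    ∃ φ : G →+ H, ∀ P ∉ S, φ P = φ0 P := by
  let Gen : G → H → Prop := fun P v => ∀ᶠ R in cofinite, φ0 (P + R) = v + φ0 R
  have gen_add : ∀ P Q v w, Gen P v → Gen Q w → Gen (P + Q) (v + w) := by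
    intro P Q v w hP hQ
    have h1 : Tendsto (fun R => Q + R) cofinite cofinite :=
      (add_right_injective Q).tendsto_cofinite
    filter_upwards [h1.eventually hP, hQ] with R h2 h3
    rw [add_assoc, h2, h3, add_assoc]
  have gen_unique : ∀ P v w, Gen P v → Gen P w → v = w := by
    intro P v w hv hw
    obtain ⟨R, h1, h2⟩ := (hv.and hw).exists
    exact add_right_cancel (h1.symm.trans h2)
  have gen_ex : ∀ P, ∃ v, Gen P v := by
    intro P
    have hfin : (S ∪ (fun Q => P - Q) ⁻¹' S).Finite :=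
      hS.union (hS.preimage (sub_right_injective.injOn))
    obtain ⟨Q, hQ⟩ := hfin.exists_notMem
    simp only [Set.mem_union, Set.mem_preimage, not_or] at hQ
    refine ⟨φ0 Q + φ0 (P - Q), ?_⟩
    have := gen_add Q (P - Q) _ _ (h Q hQ.1) (h _ hQ.2)
    rwa [add_sub_cancel] at this
  choose v hv using gen_ex
  refine ⟨AddMonoidHom.mk' v ?_, ?_⟩
  · intro P Q
    exact gen_unique _ _ _ (hv (P + Q)) (gen_add _ _ _ _ (hv P) (hv Q))
  · intro P hP
    exact gen_unique _ _ _ (hv P) (h P hP)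

variable {K : Type*} [Field K]

theorem finite_fiber (W : WeierstrassCurve K) (x0 : K) :
    {Q : W.toAffine.Point | ∃ y h, Q = Point.some x0 y h}.Finite := by
  by_cases hne : {Q : W.toAffine.Point | ∃ y h, Q = Point.some x0 y h}.Nonempty
  · obtain ⟨P, y0, h0, rfl⟩ := hne
    refine ((Set.finite_singleton (-Point.some x0 y0 h0)).insert (Point.some x0 y0 h0)).subset ?_
    rintro Q ⟨y, h, rfl⟩
    simpa using (Point.X_eq_iff (h₁ := h) (h₂ := h0)).mp rfl
  · rw [Set.not_nonempty_iff_eq_empty.mp hne]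
    exact Set.finite_empty

theorem finite_bad (W : WeierstrassCurve K) (T : Set K) (hT : T.Finite) :
    {Q : W.toAffine.Point | ¬ ∃ x y h, Q = Point.some x y h ∧ x ∉ T}.Finite := by
  refine ((hT.biUnion (fun x _ => finite_fiber W x)).insert 0).subset ?_
  rintro (_ | ⟨x, y, h⟩) hQ
  · exact Or.inl rfl
  · right
    simp only [Set.mem_ofPred_eq, not_exists, not_and, not_not] at hQ
    simp only [Set.mem_iUnion, Set.mem_ofPred_eq]
    exact ⟨x, hQ x y h rfl, y, h, rfl⟩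

theorem ev_x (W : WeierstrassCurve K) (T : Set K) (hT : T.Finite) :
    ∀ᶠ Q in (cofinite : Filter W.toAffine.Point), ∃ x y h, Q = Point.some x y h ∧ x ∉ T :=
  finite_bad W T hT

theorem finite_pairs (W : WeierstrassCurve K) (T : Set K) (hT : T.Finite) :
    {P : K × K | W.toAffine.Nonsingular P.1 P.2 ∧ P.1 ∈ T}.Finite := by
  classical
  let c : W.toAffine.Point → K × K := fun Q => match Q with
    | .zero => (0, 0)
    | .some x y _ => (x, y)
  refine ((finite_bad W T hT).image c).subset ?_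
  rintro ⟨x, y⟩ ⟨h, hx⟩
  refine ⟨Point.some x y h, ?_, rfl⟩
  rintro ⟨x', y', h', he, hx'⟩
  injection he with h1 h2
  exact hx' (h1 ▸ hx)

theorem infinite_point [IsAlgClosed K] (W : WeierstrassCurve K) (hΔ : W.Δ ≠ 0) :
    Infinite W.toAffine.Point := by
  have hex : ∀ x : K, ∃ y, W.toAffine.Nonsingular x y := by
    intro x
    have hdeg : (Polynomial.X ^ 2 + Polynomial.C (W.a₁ * x + W.a₃) * Polynomial.X
        - Polynomial.C (x ^ 3 + W.a₂ * x ^ 2 + W.a₄ * x + W.a₆) : Polynomial K).degree = 2 := by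
      compute_degree!
    obtain ⟨y, hy⟩ := IsAlgClosed.exists_root _ (by rw [hdeg]; decide)
    refine ⟨y, (equation_iff_nonsingular_of_Δ_ne_zero hΔ).mp ?_⟩
    rw [equation_iff]
    simp only [Polynomial.IsRoot.def, Polynomial.eval_sub, Polynomial.eval_add,
      Polynomial.eval_pow, Polynomial.eval_X, Polynomial.eval_mul, Polynomial.eval_C] at hy
    linear_combination hy
  choose y hy using hex
  refine Infinite.of_injective (fun x => Point.some x (y x) (hy x)) ?_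
  intro a b hab
  injection hab

variable [DecidableEq K]

theorem exists_hom_of_formula (W W' : WeierstrassCurve K) [Infinite W.toAffine.Point]
    (X Y : K → K → K) (T : Set K) (hT : T.Finite)
    (hns : ∀ x y, W.toAffine.Nonsingular x y → x ∉ T → W'.toAffine.Nonsingular (X x y) (Y x y))
    (hadd : ∀ x₁ y₁, W.toAffine.Nonsingular x₁ y₁ → x₁ ∉ T → ∃ T' : Set K, T'.Finite ∧
      ∀ x₂ y₂, W.toAffine.Nonsingular x₂ y₂ → x₂ ∉ T → x₂ ∉ T' → x₁ ≠ x₂ →
        W.toAffine.addX x₁ x₂ ((y₁ - y₂) / (x₁ - x₂)) ∉ T →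
        X x₁ y₁ ≠ X x₂ y₂ ∧
        X (W.toAffine.addX x₁ x₂ ((y₁ - y₂) / (x₁ - x₂)))
            (W.toAffine.addY x₁ x₂ y₁ ((y₁ - y₂) / (x₁ - x₂))) =
          W'.toAffine.addX (X x₁ y₁) (X x₂ y₂) ((Y x₁ y₁ - Y x₂ y₂) / (X x₁ y₁ - X x₂ y₂)) ∧
        Y (W.toAffine.addX x₁ x₂ ((y₁ - y₂) / (x₁ - x₂)))
            (W.toAffine.addY x₁ x₂ y₁ ((y₁ - y₂) / (x₁ - x₂))) =
          W'.toAffine.addY (X x₁ y₁) (X x₂ y₂) (Y x₁ y₁)
            ((Y x₁ y₁ - Y x₂ y₂) / (X x₁ y₁ - X x₂ y₂))) :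
    ∃ φ : W.toAffine.Point →+ W'.toAffine.Point,
      ∀ x y (h : W.toAffine.Nonsingular x y) (hx : x ∉ T),
        φ (Point.some x y h) = Point.some (X x y) (Y x y) (hns x y h hx) := by
  classical
  let φ0 : W.toAffine.Point → W'.toAffine.Point := fun Q => match Q with
    | .zero => 0
    | .some x y h => if hx : x ∈ T then 0 else Point.some (X x y) (Y x y) (hns x y h hx)
  have hφ0 : ∀ x y (h : W.toAffine.Nonsingular x y) (hx : x ∉ T),
      φ0 (Point.some x y h) = Point.some (X x y) (Y x y) (hns x y h hx) := by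
    intro x y h hx
    simp only [φ0, dif_neg hx]
  obtain ⟨φ, hφ⟩ := exists_hom_of_generic φ0 _ (finite_bad W T hT) (by
    intro P hP
    simp only [Set.mem_ofPred_eq, not_not] at hP
    obtain ⟨x₁, y₁, h₁, rfl, hx₁⟩ := hP
    obtain ⟨T', hT', hT''⟩ := hadd x₁ y₁ h₁ hx₁
    have h1 : Tendsto (fun R => Point.some x₁ y₁ h₁ + R) cofinite cofinite :=
      (add_right_injective _).tendsto_cofinite
    filter_upwards [ev_x W _ ((hT.union hT').insert x₁), h1.eventually (ev_x W T hT)] with Q hQ hQ'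
    obtain ⟨x₂, y₂, h₂, rfl, hx₂⟩ := hQ
    simp only [Set.mem_insert_iff, Set.mem_union, not_or] at hx₂
    have hne : x₁ ≠ x₂ := fun h => hx₂.1 h.symm
    obtain ⟨x₃, y₃, h₃, he, hx₃⟩ := hQ'
    rw [Point.add_of_X_ne hne] at he ⊢
    have hx₃' : W.toAffine.addX x₁ x₂ (W.toAffine.slope x₁ x₂ y₁ y₂) ∉ T := by
      injection he with e1 e2
      rwa [e1]
    obtain ⟨k1, k2, k3⟩ := hT'' x₂ y₂ h₂ hx₂.2.1 hx₂.2.2 hne (by rwa [slope_of_X_ne hne] at hx₃')
    rw [hφ0 _ _ (nonsingular_add h₁ h₂ fun hxy => hne hxy.left) hx₃', hφ0 _ _ h₁ hx₁,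
      hφ0 _ _ h₂ hx₂.2.1, Point.add_of_X_ne k1]
    simp only [Point.some.injEq, slope_of_X_ne hne, slope_of_X_ne k1]
    exact ⟨k2, k3⟩)
  refine ⟨φ, fun x y h hx => ?_⟩
  rw [hφ _ (by
    simp only [Set.mem_ofPred_eq, not_not]
    exact ⟨x, y, h, rfl, hx⟩), hφ0 x y h hx]

omit [DecidableEq K] in
open MvPolynomial in
theorem eval_frac (f g h p : MvPolynomial (Fin 2) K) :
    ∃ (N : ℕ) (F : MvPolynomial (Fin 2) K), ∀ x y : K, eval ![x, y] h ≠ 0 →
      eval ![eval ![x, y] f / eval ![x, y] h, eval ![x, y] g / eval ![x, y] h] p =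
        eval ![x, y] F / eval ![x, y] h ^ N := by
  induction p using MvPolynomial.induction_on with
  | C a => exact ⟨0, C a, fun x y _ => by simp⟩
  | add p q hp hq =>
    obtain ⟨N, F, hF⟩ := hp
    obtain ⟨M, G, hG⟩ := hq
    refine ⟨N + M, F * h ^ M + G * h ^ N, fun x y hh => ?_⟩
    rw [map_add, hF x y hh, hG x y hh]
    simp only [map_add, map_mul, map_pow]
    field_simp
    ring
  | mul_X p i hp =>
    obtain ⟨N, F, hF⟩ := hp
    fin_cases i
    · refine ⟨N + 1, F * f, fun x y hh => ?_⟩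
      rw [map_mul, hF x y hh]
      simp only [map_mul, eval_X, Fin.zero_eta, Matrix.cons_val_zero]
      field_simp
      ring
    · refine ⟨N + 1, F * g, fun x y hh => ?_⟩
      rw [map_mul, hF x y hh]
      simp only [map_mul, eval_X, Fin.mk_one, Matrix.cons_val_one, Matrix.cons_val_zero]
      field_simp
      ring

omit [DecidableEq K] in
theorem finite_points_of_pairs (W : WeierstrassCurve K) (S : Set (K × K)) (hS : S.Finite) :
    {Q : W.toAffine.Point | ∃ x y h, Q = Point.some x y h ∧ (x, y) ∈ S}.Finite := by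
  refine ((hS.image Prod.fst).biUnion (fun x _ => finite_fiber W x)).subset ?_
  rintro Q ⟨x, y, h, rfl, hxy⟩
  simp only [Set.mem_iUnion, Set.mem_ofPred_eq]
  exact ⟨x, ⟨(x, y), hxy, rfl⟩, y, h, rfl⟩

omit [DecidableEq K] in
theorem finite_pairs_of_points (W : WeierstrassCurve K) (S : Set W.toAffine.Point)
    (hS : S.Finite) :
    {P : K × K | ∃ h : W.toAffine.Nonsingular P.1 P.2, Point.some P.1 P.2 h ∈ S}.Finite := by
  let c : W.toAffine.Point → K × K := fun Q => match Q with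
    | .zero => (0, 0)
    | .some x y _ => (x, y)
  refine (hS.image c).subset ?_
  rintro ⟨x, y⟩ ⟨h, hx⟩
  exact ⟨Point.some x y h, hx, rfl⟩

theorem IsRationalMap.finite_ker {W W' : WeierstrassCurve K}
    (φ : W.toAffine.Point →+ W'.toAffine.Point) (hφ : IsRationalMap φ) :
    {P | φ P = 0}.Finite := by
  obtain ⟨f, g, h, hfin, hφ⟩ := hφ
  refine ((finite_points_of_pairs W _ hfin).insert 0).subset ?_
  rintro (_ | ⟨x, y, hP⟩) hQ
  · exact Or.inl rfl
  · right
    refine ⟨x, y, hP, rfl, hP, ?_⟩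
    by_contra hne
    obtain ⟨hQ', e⟩ := hφ x y hP hne
    rw [Set.mem_ofPred_eq, e] at hQ
    exact Point.some_ne_zero _ hQ

theorem finite_preimage_of_ker {G H : Type*} [AddCommGroup G] [AddCommGroup H] (φ : G →+ H)
    (hk : {P | φ P = 0}.Finite) (S : Set H) (hS : S.Finite) : (φ ⁻¹' S).Finite := by
  refine Set.Finite.preimage' hS fun b _ => ?_
  by_cases hne : (φ ⁻¹' {b}).Nonempty
  · obtain ⟨P, hP⟩ := hne
    refine (hk.image (fun Q => Q + P)).subset ?_
    intro Q hQ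
    simp only [Set.mem_preimage, Set.mem_singleton_iff] at hP hQ
    exact ⟨Q - P, by simp [hP, hQ], by simp⟩
  · rw [Set.not_nonempty_iff_eq_empty.mp hne]
    exact Set.finite_empty

open MvPolynomial in
theorem IsRationalMap.comp {W W' W'' : WeierstrassCurve K}
    (φ : W.toAffine.Point →+ W'.toAffine.Point) (ψ : W'.toAffine.Point →+ W''.toAffine.Point)
    (hφ : IsRationalMap φ) (hψ : IsRationalMap ψ) : IsRationalMap (ψ.comp φ) := by
  have hker := hφ.finite_ker
  obtain ⟨f, g, h, hfin, hφ⟩ := hφ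
  obtain ⟨f', g', h', hfin', hψ⟩ := hψ
  obtain ⟨N1, F1, hF1⟩ := eval_frac f g h f'
  obtain ⟨N2, F2, hF2⟩ := eval_frac f g h g'
  obtain ⟨N3, F3, hF3⟩ := eval_frac f g h h'
  refine ⟨F1 * h ^ (N2 + N3 + 1), F2 * h ^ (N1 + N3 + 1), F3 * h ^ (N1 + N2 + 1), ?_, ?_⟩
  · refine (hfin.union (finite_pairs_of_points W _
      (finite_preimage_of_ker φ hker _ (finite_points_of_pairs W' _ hfin')))).subset ?_
    rintro ⟨x, y⟩ ⟨hP, h0⟩
    by_cases hh : eval ![x, y] h = 0
    · exact Or.inl ⟨hP, hh⟩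
    · right
      obtain ⟨hQ, e⟩ := hφ x y hP hh
      refine ⟨hP, _, _, hQ, e, hQ, ?_⟩
      simp only [map_mul, map_pow, mul_eq_zero] at h0
      rcases h0 with h0 | h0
      · simp only at h0 ⊢
        rw [hF3 x y hh, h0, zero_div]
      · exact absurd (pow_eq_zero_iff (by omega) |>.mp h0) hh
  · intro x y hP h0
    simp only [map_mul, map_pow, ne_eq, mul_eq_zero, not_or] at h0
    have hh : eval ![x, y] h ≠ 0 := fun e => h0.2 (by rw [e]; exact zero_pow (by omega))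
    obtain ⟨hQ, e⟩ := hφ x y hP hh
    obtain ⟨hR, e'⟩ := hψ _ _ hQ (by
      rw [hF3 x y hh]
      exact div_ne_zero h0.1 (pow_ne_zero _ hh))
    have e1 : eval ![x, y] (F1 * h ^ (N2 + N3 + 1)) / eval ![x, y] (F3 * h ^ (N1 + N2 + 1)) =
        eval ![eval ![x, y] f / eval ![x, y] h, eval ![x, y] g / eval ![x, y] h] f' /
        eval ![eval ![x, y] f / eval ![x, y] h, eval ![x, y] g / eval ![x, y] h] h' := by
      rw [hF1 x y hh, hF3 x y hh]
      simp only [map_mul, map_pow]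
      have := h0.1
      field_simp
      ring
    have e2 : eval ![x, y] (F2 * h ^ (N1 + N3 + 1)) / eval ![x, y] (F3 * h ^ (N1 + N2 + 1)) =
        eval ![eval ![x, y] f / eval ![x, y] h, eval ![x, y] g / eval ![x, y] h] g' /
        eval ![eval ![x, y] f / eval ![x, y] h, eval ![x, y] g / eval ![x, y] h] h' := by
      rw [hF2 x y hh, hF3 x y hh]
      simp only [map_mul, map_pow]
      have := h0.1
      field_simp
      ring
    rw [e1, e2]
    exact ⟨hR, by rw [AddMonoidHom.comp_apply, e, e']⟩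

omit [DecidableEq K] in
theorem ex_congr {W : WeierstrassCurve K} {P : W.toAffine.Point} {X Y X' Y' : K}
    (h : ∃ h' : W.toAffine.Nonsingular X Y, P = Point.some X Y h') (hX : X' = X) (hY : Y' = Y) :
    ∃ h' : W.toAffine.Nonsingular X' Y', P = Point.some X' Y' h' := by
  subst hX hY
  exact h

/-- Change of variables as a rational group homomorphism. -/
theorem exists_varChange (W W' : WeierstrassCurve K) [Infinite W.toAffine.Point]
    (hΔ : W'.Δ ≠ 0) (u r s t : K) (hu : u ≠ 0)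
    (e1 : u * W.a₁ = W'.a₁ + 2 * s)
    (e2 : u ^ 2 * W.a₂ = W'.a₂ - s * W'.a₁ + 3 * r - s ^ 2)
    (e3 : u ^ 3 * W.a₃ = W'.a₃ + r * W'.a₁ + 2 * t)
    (e4 : u ^ 4 * W.a₄ = W'.a₄ - s * W'.a₃ + 2 * r * W'.a₂ - (t + r * s) * W'.a₁ + 3 * r ^ 2
      - 2 * s * t)
    (e6 : u ^ 6 * W.a₆ = W'.a₆ + r * W'.a₄ + r ^ 2 * W'.a₂ + r ^ 3 - t * W'.a₃ - t ^ 2
      - r * t * W'.a₁) :
    ∃ φ : W.toAffine.Point →+ W'.toAffine.Point, IsRationalMap φ ∧
      ∀ x y (h : W.toAffine.Nonsingular x y),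
        ∃ h' : W'.toAffine.Nonsingular (u ^ 2 * x + r) (u ^ 3 * y + u ^ 2 * s * x + t),
          φ (Point.some x y h) = Point.some _ _ h' := by
  have hns : ∀ x y, W.toAffine.Nonsingular x y → x ∉ (∅ : Set K) →
      W'.toAffine.Nonsingular (u ^ 2 * x + r) (u ^ 3 * y + u ^ 2 * s * x + t) := by
    intro x y h _
    refine (equation_iff_nonsingular_of_Δ_ne_zero hΔ).mp ?_
    have h1 := h.1
    rw [equation_iff] at h1 ⊢
    linear_combination u ^ 6 * h1 - u ^ 5 * x * y * e1 - u ^ 3 * y * e3 + u ^ 4 * x ^ 2 * e2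
      + u ^ 2 * x * e4 + e6
  obtain ⟨φ, hφ⟩ := exists_hom_of_formula W W' (fun x _ => u ^ 2 * x + r)
    (fun x y => u ^ 3 * y + u ^ 2 * s * x + t) ∅ Set.finite_empty hns (by
      intro x₁ y₁ h₁ _
      refine ⟨∅, Set.finite_empty, fun x₂ y₂ h₂ _ _ hne _ => ?_⟩
      have hd : x₁ - x₂ ≠ 0 := sub_ne_zero.mpr hne
      have hd' : u ^ 2 * x₁ + r - (u ^ 2 * x₂ + r) ≠ 0 := by
        have : u ^ 2 * x₁ + r - (u ^ 2 * x₂ + r) = u ^ 2 * (x₁ - x₂) := by ring
        rw [this]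
        exact mul_ne_zero (pow_ne_zero _ hu) hd
      have hs : (u ^ 3 * y₁ + u ^ 2 * s * x₁ + t - (u ^ 3 * y₂ + u ^ 2 * s * x₂ + t)) /
          (u ^ 2 * x₁ + r - (u ^ 2 * x₂ + r)) = u * ((y₁ - y₂) / (x₁ - x₂)) + s := by
        rw [div_eq_iff hd']
        field_simp
        ring
      refine ⟨sub_ne_zero.mp hd', ?_, ?_⟩
      · simp only [hs, addX]
        generalize (y₁ - y₂) / (x₁ - x₂) = l
        linear_combination u * l * e1 - e2
      · simp only [hs, addX, addY, negAddY, negY]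
        generalize (y₁ - y₂) / (x₁ - x₂) = l
        linear_combination
          (-(u ^ 2 * (l ^ 2 + W.a₁ * l - W.a₂ - x₁ - x₂)) - (u * l + s + W'.a₁) * (u * l)) * e1
            + (u * l + s + W'.a₁) * e2 - e3)
  refine ⟨φ, ⟨MvPolynomial.C (u ^ 2) * MvPolynomial.X 0 + MvPolynomial.C r,
    MvPolynomial.C (u ^ 3) * MvPolynomial.X 1 + MvPolynomial.C (u ^ 2 * s) * MvPolynomial.X 0
      + MvPolynomial.C t, 1, by simp, ?_⟩, fun x y h => ⟨_, hφ x y h (by simp)⟩⟩
  intro x y hP _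
  exact ex_congr ⟨_, hφ x y hP (by simp)⟩ (by simp) (by simp)

/-- The standard isogeny of degree two. -/
theorem exists_twoIsogeny (a b : K) (W W' : WeierstrassCurve K) [Infinite W.toAffine.Point]
    (hW : W = ⟨0, a, 0, b, 0⟩) (hW' : W' = ⟨0, -2 * a, 0, a ^ 2 - 4 * b, 0⟩)
    (hΔ : W'.Δ ≠ 0) :
    ∃ φ : W.toAffine.Point →+ W'.toAffine.Point, IsRationalMap φ ∧
      ∀ x y (h : W.toAffine.Nonsingular x y), x ≠ 0 →
        ∃ h' : W'.toAffine.Nonsingular (x + a + b / x) (y * (x ^ 2 - b) / x ^ 2),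
          φ (Point.some x y h) = Point.some _ _ h' := by
  have hns : ∀ x y, W.toAffine.Nonsingular x y → x ∉ ({0} : Set K) →
      W'.toAffine.Nonsingular (x + a + b / x) (y * (x ^ 2 - b) / x ^ 2) := by
    intro x y h hx
    refine (equation_iff_nonsingular_of_Δ_ne_zero hΔ).mp ?_
    have h1 := h.1
    have hx' : x ≠ 0 := hx
    subst hW hW'
    rw [equation_iff] at h1 ⊢
    simp only at h1 ⊢
    field_simp
    linear_combination (x ^ 2 - b) ^ 2 * h1
  obtain ⟨φ, hφ⟩ := exists_hom_of_formula W W' (fun x _ => x + a + b / x)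
    (fun x y => y * (x ^ 2 - b) / x ^ 2) {0} (Set.finite_singleton _) hns (by
      intro x₁ y₁ h₁ hx₁
      refine ⟨{b / x₁}, Set.finite_singleton _, fun x₂ y₂ h₂ hx₂ hx₂' hne hx₃ => ?_⟩
      have k1 := h₁.1
      have k2 := h₂.1
      subst hW hW'
      rw [equation_iff] at k1 k2
      simp only [Set.mem_singleton_iff, addX, addY, negAddY, negY] at *
      have hd : x₁ - x₂ ≠ 0 := sub_ne_zero.mpr hne
      have hl : y₂ = y₁ - (y₁ - y₂) / (x₁ - x₂) * (x₁ - x₂) := by field_simp; ring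
      generalize (y₁ - y₂) / (x₁ - x₂) = l at hl hx₃ ⊢
      obtain ⟨n, hn⟩ : ∃ n, y₁ = l * x₁ + n := ⟨y₁ - l * x₁, by ring⟩
      have hn2 : y₂ = l * x₂ + n := by rw [hl, hn]; ring
      obtain ⟨x₃, hx3⟩ : ∃ x₃, x₃ = l ^ 2 + 0 * l - a - x₁ - x₂ := ⟨_, rfl⟩
      rw [← hx3] at hx₃ ⊢
      subst hn hn2
      have s2 : x₁ * x₂ + x₁ * x₃ + x₂ * x₃ = b - 2 * l * n := by
        apply mul_left_cancel₀ hd
        rw [hx3]
        linear_combination k1 - k2
      have s3 : x₁ * x₂ * x₃ = n ^ 2 := by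
        linear_combination (-1) * k1 + x₁ * s2 - x₁ ^ 2 * hx3
      have hn0 : n ≠ 0 := by
        intro h0
        rw [h0] at s3
        exact mul_ne_zero (mul_ne_zero hx₁ hx₂) hx₃ (by rw [s3]; ring)
      have k3 : (l * x₃ + n) ^ 2 = x₃ ^ 3 + a * x₃ ^ 2 + b * x₃ := by
        linear_combination (-1) * s3 + x₃ * s2 - x₃ ^ 2 * hx3
      have line : ∀ x : K, x ≠ 0 → (l * x + n) ^ 2 = x ^ 3 + a * x ^ 2 + b * x →
          (l * x + n) * (x ^ 2 - b) / x ^ 2 =
            (l - b / n) * (x + a + b / x) + (n - a * l + b * l ^ 2 / n) := by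
        intro x hx hk
        field_simp
        linear_combination (-b) * hk
      have l1 := line x₁ hx₁ (by linear_combination k1)
      have l2 := line x₂ hx₂ (by linear_combination k2)
      have l3 := line x₃ hx₃ k3
      have hX : x₁ + a + b / x₁ - (x₂ + a + b / x₂) ≠ 0 := by
        have : x₁ + a + b / x₁ - (x₂ + a + b / x₂) = (x₁ - x₂) * (x₂ - b / x₁) / x₂ := by
          field_simp
          ring
        rw [this]
        exact div_ne_zero (mul_ne_zero hd (sub_ne_zero.mpr hx₂')) hx₂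
      have hs : ((l * x₁ + n) * (x₁ ^ 2 - b) / x₁ ^ 2 - (l * x₂ + n) * (x₂ ^ 2 - b) / x₂ ^ 2) /
          (x₁ + a + b / x₁ - (x₂ + a + b / x₂)) = l - b / n := by
        rw [div_eq_iff hX, l1, l2]
        ring
      have hsum : x₃ + a + b / x₃ =
          (l - b / n) ^ 2 + 0 * (l - b / n) - -2 * a - (x₁ + a + b / x₁) - (x₂ + a + b / x₂) := by
        have q : b / x₁ + b / x₂ + b / x₃ = b * (b - 2 * l * n) / n ^ 2 := by
          rw [← s2, ← s3]
          field_simp
          ring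
        have q2 : (l - b / n) ^ 2 = l ^ 2 + b * (b - 2 * l * n) / n ^ 2 := by
          field_simp
          ring
        linear_combination q - q2 + hx3
      refine ⟨sub_ne_zero.mp hX, ?_, ?_⟩
      · rw [hs]
        exact hsum
      · rw [hs, ← hsum, l1]
        have : (-(l * (x₃ - x₁) + (l * x₁ + n)) - 0 * x₃ - 0) * (x₃ ^ 2 - b) / x₃ ^ 2 =
            -((l * x₃ + n) * (x₃ ^ 2 - b) / x₃ ^ 2) := by ring
        rw [this, l3]
        ring)
  refine ⟨φ, ⟨MvPolynomial.X 0 ^ 3 + MvPolynomial.C a * MvPolynomial.X 0 ^ 2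
      + MvPolynomial.C b * MvPolynomial.X 0,
    MvPolynomial.X 1 * (MvPolynomial.X 0 ^ 2 - MvPolynomial.C b), MvPolynomial.X 0 ^ 2, ?_, ?_⟩,
    fun x y h hx => ⟨_, hφ x y h hx⟩⟩
  · refine (finite_pairs W {0} (Set.finite_singleton _)).subset ?_
    rintro ⟨x, y⟩ ⟨h, h0⟩
    exact ⟨h, by simpa using h0⟩
  · intro x y hP h0
    have hx : x ≠ 0 := by simpa using h0
    refine ex_congr ⟨_, hφ x y hP hx⟩ ?_ (by simp)
    simp only [map_add, map_mul, map_pow, MvPolynomial.eval_C, MvPolynomial.eval_X,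
      Matrix.cons_val_zero]
    field_simp

end Pool.Agent.Lib.MP_f38b71_nt
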