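import Pool.Agent.Lib.MP_f38b71_nt.Isog

namespace Pool.Agent.Lib.MP_f38b71_nt

open WeierstrassCurve WeierstrassCurve.Affine

theorem zsmul_of_two_torsion {G : Type*} [AddCommGroup G] (P : G) (hP : P + P = 0) (n : ℤ) :
    n • P = 0 ∨ n • P = P := by
  obtain ⟨k, rfl | rfl⟩ := Int.even_or_odd' n
  · left
    rw [mul_comm, mul_smul, two_zsmul, hP, smul_zero]
  · right
    rw [add_smul, mul_comm, mul_smul, two_zsmul, hP, smul_zero, zero_add, one_smul]

theorem delta_short {K : Type*} [Field K] [CharZero K] (a b : K) (hb : b ≠ 0)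
    (hab : a ^ 2 - 4 * b ≠ 0) : (⟨0, a, 0, b, 0⟩ : WeierstrassCurve K).Δ ≠ 0 := by
  have : (⟨0, a, 0, b, 0⟩ : WeierstrassCurve K).Δ = 16 * b ^ 2 * (a ^ 2 - 4 * b) := by
    simp only [Δ, b₂, b₄, b₆, b₈]
    ring
  rw [this]
  exact mul_ne_zero (mul_ne_zero (by norm_num) (pow_ne_zero _ hb)) hab

theorem exists_cm {K : Type*} [Field K] [CharZero K] [IsAlgClosed K] [DecidableEq K]
    (W0 : WeierstrassCurve K) (hW0 : W0 = ⟨1, -1, 0, -37, -78⟩) :
    ∃ φ : W0.toAffine.Point →+ W0.toAffine.Point,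
      IsRationalMap φ ∧ ∀ n : ℤ, ∃ P, φ P ≠ n • P := by
  obtain ⟨s, hs⟩ : ∃ s : K, s ^ 2 = -7 := IsAlgClosed.exists_pow_nat_eq _ (by norm_num)
  obtain ⟨q, hq⟩ : ∃ q : K, q ^ 2 = 7 := IsAlgClosed.exists_pow_nat_eq _ (by norm_num)
  have lin : ∀ c d : ℤ, c ^ 2 + 7 * d ^ 2 ≠ 0 → (c : K) + d * s ≠ 0 := by
    intro c d h h0
    apply h
    have : ((c ^ 2 + 7 * d ^ 2 : ℤ) : K) = 0 := by
      push_cast
      linear_combination ((c : K) - d * s) * h0 + (d : K) ^ 2 * hs
    exact_mod_cast this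
  set a3 : K := (-21 + 3 * s) / 2 with ha3
  set b3 : K := (-21 * s - 7) / 2 with hb3
  have hb3' : b3 ≠ 0 := by
    have := lin (-7) (-21) (by norm_num)
    intro h
    apply this
    push_cast
    linear_combination 2 * h - 2 * hb3
  have hab3 : a3 ^ 2 - 4 * b3 ≠ 0 := by
    have := lin 217 21 (by norm_num)
    intro h
    apply this
    push_cast
    rw [ha3, hb3] at h
    linear_combination 2 * h - (9 / 2) * hs
  have hΔ0 : W0.Δ ≠ 0 := by
    rw [hW0]
    simp only [Δ, b₂, b₄, b₆, b₈]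
    norm_num
  let W1 : WeierstrassCurve K := ⟨0, -42, 0, -7, 0⟩
  let W2 : WeierstrassCurve K := ⟨0, -2 * -42, 0, (-42) ^ 2 - 4 * -7, 0⟩
  let W3 : WeierstrassCurve K := ⟨0, a3, 0, b3, 0⟩
  let W4 : WeierstrassCurve K := ⟨0, -2 * a3, 0, a3 ^ 2 - 4 * b3, 0⟩
  let W5 : WeierstrassCurve K := ⟨0, 21, 0, 112, 0⟩
  let W6 : WeierstrassCurve K := ⟨0, -2 * 21, 0, 21 ^ 2 - 4 * 112, 0⟩
  have hΔ1 : W1.Δ ≠ 0 := delta_short _ _ (by norm_num) (by norm_num)
  have hΔ2 : W2.Δ ≠ 0 := delta_short _ _ (by norm_num) (by norm_num)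
  have hΔ3 : W3.Δ ≠ 0 := delta_short _ _ hb3' hab3
  have hΔ4 : W4.Δ ≠ 0 := delta_short _ _ hab3 (by
    have : (-2 * a3) ^ 2 - 4 * (a3 ^ 2 - 4 * b3) = 16 * b3 := by ring
    rw [this]
    exact mul_ne_zero (by norm_num) hb3')
  have hΔ5 : W5.Δ ≠ 0 := delta_short _ _ (by norm_num) (by norm_num)
  have hΔ6 : W6.Δ ≠ 0 := delta_short _ _ (by norm_num) (by norm_num)
  have := infinite_point W0 hΔ0
  have := infinite_point W1 hΔ1
  have := infinite_point W2 hΔ2
  have := infinite_point W3 hΔ3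
  have := infinite_point W4 hΔ4
  have := infinite_point W5 hΔ5
  have := infinite_point W6 hΔ6
  obtain ⟨f1, r1, g1⟩ := exists_varChange W0 W1 hΔ1 2 13 1 0 (by norm_num)
    (by simp only [hW0, W1]; norm_num) (by simp only [hW0, W1]; norm_num)
    (by simp only [hW0, W1]; norm_num) (by simp only [hW0, W1]; norm_num)
    (by simp only [hW0, W1]; norm_num)
  obtain ⟨f2, r2, g2⟩ := exists_twoIsogeny (-42) (-7) W1 W2 rfl rfl hΔ2
  obtain ⟨f3, r3, g3⟩ := exists_varChange W2 W3 hΔ3 (1 / 2) ((21 - s) / 2) 0 0 (by norm_num)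
    (by simp only [W2, W3]; norm_num) (by simp only [W2, W3, ha3]; ring)
    (by simp only [W2, W3]; norm_num)
    (by simp only [W2, W3, ha3, hb3]; linear_combination (3 / 4) * hs)
    (by simp only [W2, W3, ha3, hb3]; linear_combination ((s - 21) / 4 * (-1)) * hs)
  obtain ⟨f4, r4, g4⟩ := exists_twoIsogeny a3 b3 W3 W4 rfl rfl hΔ4
  obtain ⟨f5, r5, g5⟩ := exists_varChange W4 W5 hΔ5 ((1 - s) / 4) (-(21 + s) / 2) 0 0
    (by
      have := lin 1 (-1) (by norm_num)
      intro h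
      apply this
      push_cast
      linear_combination 4 * h)
    (by simp only [W4, W5]; norm_num)
    (by simp only [W4, W5, ha3]; linear_combination ((27 - 3 * s) / 16) * hs)
    (by simp only [W4, W5]; norm_num)
    (by simp only [W4, W5, ha3, hb3]; clear * - hs; grind)
    (by simp only [W4, W5]; linear_combination ((21 + s) / 8) * hs)
  obtain ⟨f6, r6, g6⟩ := exists_twoIsogeny 21 112 W5 W6 rfl rfl hΔ6
  obtain ⟨f7, r7, g7⟩ := exists_varChange W6 W0 hΔ0 (1 / 2) (-13 / 4) (-1 / 2) (13 / 8)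
    (by norm_num)
    (by simp only [hW0, W6]; norm_num) (by simp only [hW0, W6]; norm_num)
    (by simp only [hW0, W6]; norm_num) (by simp only [hW0, W6]; norm_num)
    (by simp only [hW0, W6]; norm_num)
  refine ⟨f7.comp (f6.comp (f5.comp (f4.comp (f3.comp (f2.comp f1))))),
    IsRationalMap.comp _ _ (IsRationalMap.comp _ _ (IsRationalMap.comp _ _
      (IsRationalMap.comp _ _ (IsRationalMap.comp _ _ (IsRationalMap.comp _ _ r1 r2) r3) r4) r5)
      r6) r7, fun n => ?_⟩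
  have hε : (21 + 8 * q : K) ≠ 0 := by
    intro h
    have : (7 : K) = 0 := by linear_combination (8 * q - 21) * h - 64 * hq
    norm_num at this
  have hP : W0.toAffine.Nonsingular (2 + 2 * q) (-1 - q) := by
    refine (equation_iff_nonsingular_of_Δ_ne_zero hΔ0).mp ?_
    rw [equation_iff, hW0]
    simp only
    linear_combination (-21 - 8 * q) * hq
  refine ⟨Point.some _ _ hP, ?_⟩
  obtain ⟨h1, e1⟩ := ex_congr (g1 _ _ hP) (X' := 21 + 8 * q) (Y' := 0) (by ring) (by ring)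
  obtain ⟨h2, e2⟩ := ex_congr (g2 _ _ h1 hε) (X' := 0) (Y' := 0)
    (by field_simp; linear_combination (-64) * hq) (by ring)
  obtain ⟨h3, e3⟩ := ex_congr (g3 _ _ h2) (X' := (21 - s) / 2) (Y' := 0) (by ring) (by ring)
  have hr3 : (21 - s) / 2 ≠ 0 := by
    have := lin 21 (-1) (by norm_num)
    intro h
    apply this
    push_cast
    linear_combination 2 * h
  have hr3' : 21 - s ≠ 0 := fun h => hr3 (by rw [h]; ring)
  obtain ⟨h4, e4⟩ := ex_congr (g4 _ _ h3 hr3) (X' := 0) (Y' := 0)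
    (by rw [ha3, hb3]; field_simp; linear_combination (2) * hs) (by ring)
  obtain ⟨h5, e5⟩ := ex_congr (g5 _ _ h4) (X' := -(21 + s) / 2) (Y' := 0) (by ring) (by ring)
  have hr5' : 21 + s ≠ 0 := by
    have := lin 21 1 (by norm_num)
    intro h
    apply this
    push_cast
    linear_combination h
  have hr5 : -(21 + s) / 2 ≠ 0 := div_ne_zero (neg_ne_zero.mpr hr5') (by norm_num)
  obtain ⟨h6, e6⟩ := ex_congr (g6 _ _ h5 hr5) (X' := 0) (Y' := 0)
    (by field_simp; linear_combination hs) (by ring)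
  obtain ⟨h7, e7⟩ := ex_congr (g7 _ _ h6) (X' := -13 / 4) (Y' := 13 / 8) (by ring) (by ring)
  simp only [AddMonoidHom.comp_apply]
  rw [e1, e2, e3, e4, e5, e6, e7]
  have h2P : Point.some _ _ hP + Point.some _ _ hP = 0 := by
    apply Point.add_self_of_Y_eq
    rw [negY, hW0]
    simp only
    ring
  rcases zsmul_of_two_torsion _ h2P n with h | h
  · rw [h]
    exact Point.some_ne_zero _
  · rw [h]
    intro he
    injection he with k1 k2
    apply hε
    linear_combination (-4) * k1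

theorem hasCM_49 :
    HasCM ((⟨1, -1, 0, -37, -78⟩ : WeierstrassCurve ℤ).map (Int.castRingHom ℚ)) := by
  classical
  refine exists_cm _ ?_
  ext <;> simp [WeierstrassCurve.baseChange]

end Pool.Agent.Lib.MP_f38b71_nt
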