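import Mathlib

/-!
Definitions for MP_f38b71_nt: the q-expansions of E_k, j and E_k/(j - c), the trace a_p of an
integral Weierstrass model, and complex multiplication.
-/

namespace Pool.Agent.Lib.MP_f38b71_nt

/-- The normalised Eisenstein series `E_k = 1 - (2k/B_k) * sum_{n ≥ 1} sigma_{k-1}(n) q^n`,
as a formal power series in `q`. -/
noncomputable def eisenstein (k : ℕ) : PowerSeries ℚ :=
  PowerSeries.mk fun n =>
    if n = 0 then 1 else -(2 * (k : ℚ) / bernoulli k) * (ArithmeticFunction.sigma (k - 1) n : ℚ)

/-- The modular invariant `j = 1728 E_4^3 / (E_4^3 - E_6^2) = q⁻¹ + 744 + ...`,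
as a formal Laurent series in `q`. -/
noncomputable def jInv : LaurentSeries ℚ :=
  1728 * (eisenstein 4 : LaurentSeries ℚ) ^ 3 /
    ((eisenstein 4 : LaurentSeries ℚ) ^ 3 - (eisenstein 6 : LaurentSeries ℚ) ^ 2)

/-- The coefficient of `q^n` in the expansion of `E_k / (j - c)`. -/
noncomputable def coeffF (k : ℕ) (c : ℚ) (n : ℕ) : ℚ :=
  ((eisenstein k : LaurentSeries ℚ) / (jInv - HahnSeries.C c)).coeff (n : ℤ)

/-- `a_p = p + 1 - |W(F_p)|` for an integral Weierstrass equation `W`
(the point at infinity is counted). -/
noncomputable def frobTrace (W : WeierstrassCurve ℤ) (p : ℕ) : ℤ :=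
  (p : ℤ) + 1 - (Nat.card (W.map (Int.castRingHom (ZMod p))).toAffine.Point : ℤ)

/-- A map `φ` on points is given by rational functions: there are polynomials `f, g, h` in
`x, y` such that `h` vanishes at only finitely many points of the curve and
`φ (x, y) = (f/h, g/h)` at every affine point where `h` does not vanish. -/
def IsRationalMap {K : Type*} [Field K] {W W' : WeierstrassCurve K}
    (φ : W.toAffine.Point → W'.toAffine.Point) : Prop :=
  ∃ f g h : MvPolynomial (Fin 2) K,
    {P : K × K | W.toAffine.Nonsingular P.1 P.2 ∧ MvPolynomial.eval ![P.1, P.2] h = 0}.Finite ∧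
    ∀ (x y : K) (hP : W.toAffine.Nonsingular x y), MvPolynomial.eval ![x, y] h ≠ 0 →
      ∃ hQ : W'.toAffine.Nonsingular
          (MvPolynomial.eval ![x, y] f / MvPolynomial.eval ![x, y] h)
          (MvPolynomial.eval ![x, y] g / MvPolynomial.eval ![x, y] h),
        φ (.some x y hP) = .some _ _ hQ

open Classical in
/-- `C` has complex multiplication: the group of points of `C` over an algebraic closure of `ℚ`
has a group endomorphism given by rational functions that is not multiplication by an integer. -/
def HasCM (C : WeierstrassCurve ℚ) : Prop :=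
  ∃ φ : (C.baseChange (AlgebraicClosure ℚ)).toAffine.Point →+
      (C.baseChange (AlgebraicClosure ℚ)).toAffine.Point,
    IsRationalMap φ ∧ ∀ n : ℤ, ∃ P, φ P ≠ n • P

end Pool.Agent.Lib.MP_f38b71_nt
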