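import Pool.Agent.Lib.MP_f38b71_nt.Defs

namespace Pool.Agent.Lib.MP_f38b71_nt

open PowerSeries

theorem coeff_one_mul' (f g : PowerSeries ℚ) :
    coeff 1 (f * g) = coeff 0 f * coeff 1 g + coeff 1 f * coeff 0 g := by
  rw [coeff_mul, Finset.Nat.antidiagonal_succ, Finset.sum_cons]
  simp

theorem coeff_two_mul' (f g : PowerSeries ℚ) :
    coeff 2 (f * g) = coeff 0 f * coeff 2 g + coeff 1 f * coeff 1 g + coeff 2 f * coeff 0 g := by
  rw [coeff_mul, Finset.Nat.antidiagonal_succ, Finset.sum_cons, Finset.Nat.antidiagonal_succ]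
  simp [add_assoc]

theorem coeff_zero_mul' (f g : PowerSeries ℚ) :
    coeff 0 (f * g) = coeff 0 f * coeff 0 g := by
  simp

theorem bernoulli'_six : bernoulli' 6 = 1 / 42 := by
  rw [bernoulli'_def]
  norm_num [Finset.sum_range_succ, Nat.choose, bernoulli'_eq_zero_of_odd]

theorem bernoulli'_eight : bernoulli' 8 = -1 / 30 := by
  rw [bernoulli'_def]
  norm_num [Finset.sum_range_succ, Nat.choose, bernoulli'_six,
    bernoulli'_eq_zero_of_odd (n := 5) (by decide) (by decide),
    bernoulli'_eq_zero_of_odd (n := 7) (by decide) (by decide)]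

theorem bernoulli'_ten : bernoulli' 10 = 5 / 66 := by
  rw [bernoulli'_def]
  norm_num [Finset.sum_range_succ, Nat.choose, bernoulli'_six, bernoulli'_eight,
    bernoulli'_eq_zero_of_odd (n := 5) (by decide) (by decide),
    bernoulli'_eq_zero_of_odd (n := 7) (by decide) (by decide),
    bernoulli'_eq_zero_of_odd (n := 9) (by decide) (by decide)]

theorem bernoulli'_twelve : bernoulli' 12 = -691 / 2730 := by
  rw [bernoulli'_def]
  norm_num [Finset.sum_range_succ, Nat.choose, bernoulli'_six, bernoulli'_eight, bernoulli'_ten,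
    bernoulli'_eq_zero_of_odd (n := 5) (by decide) (by decide),
    bernoulli'_eq_zero_of_odd (n := 7) (by decide) (by decide),
    bernoulli'_eq_zero_of_odd (n := 9) (by decide) (by decide),
    bernoulli'_eq_zero_of_odd (n := 11) (by decide) (by decide)]

theorem bernoulli'_fourteen : bernoulli' 14 = 7 / 6 := by
  rw [bernoulli'_def]
  norm_num [Finset.sum_range_succ, Nat.choose, bernoulli'_six, bernoulli'_eight, bernoulli'_ten,
    bernoulli'_twelve,
    bernoulli'_eq_zero_of_odd (n := 5) (by decide) (by decide),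
    bernoulli'_eq_zero_of_odd (n := 7) (by decide) (by decide),
    bernoulli'_eq_zero_of_odd (n := 9) (by decide) (by decide),
    bernoulli'_eq_zero_of_odd (n := 11) (by decide) (by decide),
    bernoulli'_eq_zero_of_odd (n := 13) (by decide) (by decide)]

theorem eis_zero (k : ℕ) : coeff 0 (eisenstein k) = 1 := by simp [eisenstein]

theorem eis_one (k : ℕ) : coeff 1 (eisenstein k) = -(2 * (k : ℚ) / bernoulli k) := by
  simp [eisenstein]

theorem eis_two (k : ℕ) :
    coeff 2 (eisenstein k) = -(2 * (k : ℚ) / bernoulli k) * (1 + 2 ^ (k - 1)) := by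
  have : ArithmeticFunction.sigma (k - 1) 2 = 1 + 2 ^ (k - 1) := by
    rw [ArithmeticFunction.sigma_apply, Nat.Prime.divisors Nat.prime_two]
    simp
  simp [eisenstein, this]

theorem bern4 : bernoulli 4 = -1 / 30 := by
  rw [bernoulli_eq_bernoulli'_of_ne_one (by decide), bernoulli'_four]
theorem bern6 : bernoulli 6 = 1 / 42 := by
  rw [bernoulli_eq_bernoulli'_of_ne_one (by decide), bernoulli'_six]
theorem bern8 : bernoulli 8 = -1 / 30 := by
  rw [bernoulli_eq_bernoulli'_of_ne_one (by decide), bernoulli'_eight]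
theorem bern10 : bernoulli 10 = 5 / 66 := by
  rw [bernoulli_eq_bernoulli'_of_ne_one (by decide), bernoulli'_ten]
theorem bern14 : bernoulli 14 = 7 / 6 := by
  rw [bernoulli_eq_bernoulli'_of_ne_one (by decide), bernoulli'_fourteen]

theorem coeffF_one_two (k : ℕ) (c : ℚ) :
    coeffF k c 1 = 1 ∧ coeffF k c 2 = c - 744 + coeff 1 (eisenstein k) := by
  set A : PowerSeries ℚ := eisenstein 4 ^ 3 with hA
  set B : PowerSeries ℚ := eisenstein 6 ^ 2 with hB
  have A0 : coeff 0 A = 1 := by
    rw [hA, pow_succ, pow_two]; simp only [coeff_zero_mul', eis_zero]; norm_num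
  have A1 : coeff 1 A = 720 := by
    rw [hA, pow_succ, pow_two]
    simp only [coeff_zero_mul', coeff_one_mul', eis_zero, eis_one, bern4]; norm_num
  have A2 : coeff 2 A = 179280 := by
    rw [hA, pow_succ, pow_two]
    simp only [coeff_zero_mul', coeff_one_mul', coeff_two_mul', eis_zero, eis_one, eis_two, bern4]
    norm_num
  have B0 : coeff 0 B = 1 := by
    rw [hB, pow_two]; simp only [coeff_zero_mul', eis_zero]; norm_num
  have B1 : coeff 1 B = -1008 := by
    rw [hB, pow_two]
    simp only [coeff_one_mul', eis_zero, eis_one, bern6]; norm_num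
  have B2 : coeff 2 B = 220752 := by
    rw [hB, pow_two]
    simp only [coeff_two_mul', eis_zero, eis_one, eis_two, bern6]
    norm_num
  set D : PowerSeries ℚ := A - B with hD
  have D0 : coeff 0 D = 0 := by rw [hD, map_sub, A0, B0]; norm_num
  have D1 : coeff 1 D = 1728 := by rw [hD, map_sub, A1, B1]; norm_num
  have D2 : coeff 2 D = -41472 := by rw [hD, map_sub, A2, B2]; norm_num
  set N : PowerSeries ℚ := C 1728 * A - C c * D with hN
  have N0 : coeff 0 N = 1728 := by rw [hN, map_sub, coeff_C_mul, coeff_C_mul, A0, D0]; norm_num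
  have N1 : coeff 1 N = 1728 * (720 - c) := by
    rw [hN, map_sub, coeff_C_mul, coeff_C_mul, A1, D1]; ring
  have hN0 : constantCoeff N ≠ 0 := by
    rw [← coeff_zero_eq_constantCoeff_apply, N0]; norm_num
  set G : PowerSeries ℚ := eisenstein k * D * N⁻¹ with hG
  have hGN : G * N = eisenstein k * D := by
    rw [hG, mul_assoc, PowerSeries.inv_mul_cancel _ hN0, mul_one]
  have hDne : (D : LaurentSeries ℚ) ≠ 0 := by
    intro h
    have h1 : D = 0 := HahnSeries.ofPowerSeries_injective (Γ := ℤ) (by simpa using h)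
    rw [h1] at D1
    simp at D1
  have hNne : (N : LaurentSeries ℚ) ≠ 0 := by
    intro h
    have h1 : N = 0 := HahnSeries.ofPowerSeries_injective (Γ := ℤ) (by simpa using h)
    rw [h1] at N0
    simp at N0
  have hF : (eisenstein k : LaurentSeries ℚ) / (jInv - HahnSeries.C c) = (G : LaurentSeries ℚ) := by
    have e1 : jInv - HahnSeries.C c = (N : LaurentSeries ℚ) / (D : LaurentSeries ℚ) := by
      have e2 : jInv = 1728 * (A : LaurentSeries ℚ) / (D : LaurentSeries ℚ) := by
        rw [jInv, hD, hA, hB]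
        simp only [map_sub, map_pow]
      have e3 : (N : LaurentSeries ℚ) =
          1728 * (A : LaurentSeries ℚ) - HahnSeries.C c * (D : LaurentSeries ℚ) := by
        rw [hN]
        simp only [map_sub, map_mul, HahnSeries.ofPowerSeries_C, map_ofNat]
      rw [e2, e3]
      field_simp
    rw [e1, div_div_eq_mul_div, div_eq_iff hNne, ← map_mul, ← map_mul, hGN]
  have hc : ∀ n : ℕ, coeffF k c n = coeff n G := by
    intro n
    rw [coeffF, hF, HahnSeries.ofPowerSeries_apply_coeff]
  have q0 := congrArg (coeff 0) hGN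
  have q1 := congrArg (coeff 1) hGN
  have q2 := congrArg (coeff 2) hGN
  rw [coeff_zero_mul' G N, coeff_zero_mul' _ D, N0, D0] at q0
  rw [coeff_one_mul' G N, coeff_one_mul' _ D, N0, N1, D0, D1, eis_zero] at q1
  rw [coeff_two_mul' G N, coeff_two_mul' _ D, N0, N1, D0, D1, D2, eis_zero] at q2
  have G0 : coeff 0 G = 0 := by linarith
  rw [G0] at q1 q2
  have G1 : coeff 1 G = 1 := by linarith
  rw [G1] at q2
  rw [hc, hc]
  exact ⟨G1, by linarith⟩

end Pool.Agent.Lib.MP_f38b71_nt
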